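import Pool.Agent.LQG65.Main

/-!
# The spectrum of Liouville Brownian motion is almost surely simple

Case `x = 0` of Q1. `h` is a Gaussian free field with zero boundary conditions on the bounded open
set `D`, given by its Dirichlet pairings `ξ φ = (h, φ)_∇` with test functions and its circle
averages `h ε x` (`IsGFF`), and `μ` is its Liouville measure with parameter `γ` (`IsLiouville`).
The eigenvalues `lam D (μ ω) j`, `j = 0, 1, …`, are the min-max values of `½ ∫ |∇u|²` against
`∫ u² dμ` over the test functions on `D`, a core of the Dirichlet form of Liouville Brownian motion.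

The proof. The sum of the `k` largest values `1 / λ_j` is the supremum of `∑ ∫ u_i² dμ` over the
frames `u` of `k` test functions, orthonormal for the Dirichlet form. Replacing `h` by `h + t φ`
replaces `μ` by `e^{γ t φ} μ`. The component of `h` along `φ` is independent of the rest of the
field and has a Gaussian law, and a function has at most one point at which it has a strict kink of
given slopes, so the supremum has almost surely only one supporting slope in the direction `φ`, for
all `φ` of a countable dense family. If `λ_k = λ_{k+1}`, near-optimal frames converge in `L²(μ)`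
(the form is compact because `λ_j → ∞`), and exchanging or mixing the last two limit functions
`E, E'` gives slopes which differ by `∫ φ (E² - E'²) dμ` and a multiple of `∫ φ E E' dμ`. So
`E² = E'²` and `E E' = 0` almost everywhere for `μ`, and `E = 0`, a contradiction.
-/

open MeasureTheory Filter Topology

namespace Pool.Agent.Results.MP_9bf13d_pr.SimpleSpectrum

open Pool.Agent.LQG65

/-- **Q1 at `x = 0`.** Almost surely, if the spectrum is discrete (`λ_0 > 0` and `λ_j → ∞`), every
eigenvalue is simple, every rescaled gap is positive, and the number of rescaled gaps at most `0`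
among the first `N` is `0` for every `N`. -/
theorem result {Ω : Type*} [MeasurableSpace Ω] (P : Measure Ω) [IsProbabilityMeasure P]
    (D : Set ℂ) (hD : IsOpen D) (hb : Bornology.IsBounded D) (γ : ℝ) (hγ : 0 < γ) (hγ2 : γ < 2)
    (ξ : TestFn D → Ω → ℝ) (h : ℝ → ℂ → Ω → ℝ) (hG : IsGFF D P ξ h)
    (μ : Ω → Measure ℂ) (hμ : IsLiouville D P γ h μ) :
    ∀ᵐ ω ∂P, (0 < lam D (μ ω) 0 ∧ Tendsto (lam D (μ ω)) atTop atTop) →
      (∀ j, lam D (μ ω) j < lam D (μ ω) (j + 1)) ∧ (∀ j, 0 < gap D γ (μ ω) j) ∧
      ∀ N : ℕ, {j : ℕ | j < N ∧ gap D γ (μ ω) j ≤ 0}.ncard = 0 := by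
  filter_upwards [simple_of hD hb hG hγ hμ] with ω hω hdisc
  obtain ⟨h1, h2, h3⟩ := hω hdisc
  have hgap : ∀ j, 0 < gap D γ (μ ω) j := by
    intro j
    have h4 : 0 < 2 - γ ^ 2 / 2 := by nlinarith
    have h5 : 0 < (μ ω D).toReal := ENNReal.toReal_pos h2.ne' h3.ne
    have h6 : 0 < lam D (μ ω) (j + 1) - lam D (μ ω) j := sub_pos.mpr (h1 j)
    have h7 := Real.pi_pos
    unfold gap
    positivity
  refine ⟨h1, hgap, fun N => ?_⟩
  have h8 : {j : ℕ | j < N ∧ gap D γ (μ ω) j ≤ 0} = ∅ := by
    ext j
    simp only [Set.mem_ofPred_eq, Set.mem_empty_iff_false, iff_false, not_and, not_le]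
    exact fun _ => hgap j
  rw [h8, Set.ncard_empty]

end Pool.Agent.Results.MP_9bf13d_pr.SimpleSpectrum
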